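import Pool.Agent.TH948.MT.Last

/-!
# The rank part of the refined conjecture of Mazur and Tate fails

Let `E : y² = x³ + 1958x² + 990125x` (conductor `2² · 5 · 89²`, the twist by `89` of a curve of
conductor `20`) and let `E' : y² = x³ - 979x² - 7921x`, which is 2-isogenous to `E`. Both have rank
at least `2`. With `Ω⁺ = ∫_{E(ℝ)} |ω|` all modular symbols `[r]⁺` of `E` are integers, and with
`Ω⁺ = ½ ∫_{E'(ℝ)} |ω|` all modular symbols `[r]⁺` of `E'` are integers, so that in both cases every
subring `R` of `ℚ` is allowed. The element `θ_89` is not in `I²` as soon as `1/2 ∉ R`: the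
homomorphism `(ℤ/89)ˣ → ℤ/8` (the discrete logarithm to the base `3`) sends it to `4`.
-/

set_option autoImplicit false

namespace Pool.Agent.Results.MP_d314fd_nt.RankPartFails

open Pool.Agent.TH948.MT

/-- **Negated form of Q1.** -/
theorem result :
    -- `Ω⁺ = ∫_{E(ℝ)} |ω|`: the conjecture is false, the curve `E : y² = x³ + 1958x² + 990125x` is a
    -- counterexample with `S = 89`
    (FailsAt 1 EA 89 ∧ ¬ RankConjecture 1) ∧
    -- `Ω⁺ = ½ ∫_{E(ℝ)} |ω|`: the conjecture is false, the curve `E' : y² = x³ - 979x² - 7921x` is a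
    -- counterexample with `S = 89`
    (FailsAt (1 / 2) EB 89 ∧ ¬ RankConjecture (1 / 2)) :=
  ⟨⟨⟨minA, rankA, coeffRing goodA Om.ompA, theta_not goodA Om.ompA⟩,
      not_conj goodA minA Om.ompA rankA⟩,
    ⟨minB, rankB, coeffRing goodB Om.ompB, theta_not goodB Om.ompB⟩,
      not_conj goodB minB Om.ompB rankB⟩

end Pool.Agent.Results.MP_d314fd_nt.RankPartFails
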